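import Pool.Agent.H82.NET.Stmts
import Pool.Agent.H82.POLY.Fin

set_option autoImplicit false

namespace Pool.NET

open Pool.POLY

/-- A finite family of elements with trees in the grid. -/
structure Sys (P : Type) [PartialOrder P] where
  N : P → Set Nd
  h : P → Nd → Prop
  u : Nd → Prop
  fin : ∀ z, (N z).Finite
  ne : ∀ z, (N z).Nonempty
  hn : ∀ z, HN (N z) (h z)
  un : ∀ z, UN (N z) u
  tr : ∀ z, Tr (N z) (h z) u
  dis : ∀ z z', ¬ z ≤ z' → ¬ z' ≤ z → Disjoint (N z) (N z')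
  cov : ∀ z z', z ⋖ z' → ∃ v, v ∈ N z ∧ v ∈ N z' ∧ ¬ h z v ∧ ¬ h z' v

theorem nx_ne (h u : Nd → Prop) (a : Nd × Kd) : nx h u a ≠ a := by
  obtain ⟨v, k⟩ := a
  intro hh
  have hk := congrArg Prod.snd hh
  cases k
  · by_cases h1 : h (v.1 - 1, v.2)
    · by_cases h2 : u (v.1 - 1, v.2)
      · simp [nx, upV, h1, h2] at hk
      · simp [nx, upV, h1, h2] at hk
    · simp [nx, h1] at hk
  · by_cases h1 : h v
    · by_cases h2 : u (v.1 + 1, v.2 - 1)
      · simp [nx, dnV, h1, h2] at hk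
      · simp [nx, dnV, h1, h2] at hk
    · simp [nx, h1] at hk
  · by_cases h2 : u v
    · simp [nx, upV, h2] at hk
    · simp [nx, upV, h2] at hk
  · simp [nx] at hk
  · by_cases h2 : u (v.1, v.2 - 1)
    · simp [nx, dnV, h2] at hk
    · simp [nx, dnV, h2] at hk
  · simp [nx] at hk

/-- From a system to stable matchings. -/
theorem sys_thm (hPIN : PIN_S) (hCRS : CRS_S) (hCRD : CRD_S) (hCRM : CRM_S) (hSAM : SAM_S)
    (hKEY : KEY_S) (P : Type) [Finite P] [PartialOrder P] (Z : Sys P) :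
    ∃ (n : ℕ) (dM dW : Fin n → Fin n → ℝ),
      (∀ i, Function.Injective (dM i)) ∧ (∀ i, Function.Injective (dW i)) ∧
      (∃ X : Fin n → ℝ, Function.Injective X ∧
        ∀ i a b c, X a < X b → X b < X c → dM i b ≤ max (dM i a) (dM i c)) ∧
      (∃ Y : Fin n → ℝ, Function.Injective Y ∧
        ∀ i a b c, Y a < Y b → Y b < Y c → dW i b ≤ max (dW i a) (dW i c)) ∧
      ∃ f : LowerSet P ≃ {σ : Equiv.Perm (Fin n) // St dM dW σ},
        ∀ S T, S ≤ T ↔ ∀ w, dW w ((f T).1.symm w) ≤ dW w ((f S).1.symm w) := by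
  classical
  have : Fintype P := Fintype.ofFinite P
  -- ranks
  obtain ⟨ρ0, hρ0⟩ : ∃ ρ0 : P → ℕ, ∀ p q : P, p < q → ρ0 p < ρ0 q := by
    refine ⟨fun p => (Finset.univ.filter fun q => q < p).card, ?_⟩
    intro p q hpq
    refine Finset.card_lt_card ?_
    rw [Finset.ssubset_iff_of_subset]
    · exact ⟨p, by simp [hpq], by simp⟩
    · intro r hr
      simp only [Finset.mem_filter, Finset.mem_univ, true_and] at hr ⊢
      exact hr.trans hpq
  let c : ℕ := Fintype.card P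
  let en : P → ℕ := fun p => (Fintype.equivFin P p).1
  have hen : ∀ p, en p < c := fun p => (Fintype.equivFin P p).2
  have heni : Function.Injective en := fun p q h =>
    (Fintype.equivFin P).injective (Fin.ext h)
  let ρ : P → ℤ := fun p => (ρ0 p : ℤ) * c + en p
  have hρinj : Function.Injective ρ := by
    intro p q h
    apply heni
    have h1 : (ρ0 p : ℤ) * c + en p = (ρ0 q : ℤ) * c + en q := h
    have h2 := hen p
    have h3 := hen q
    rcases lt_trichotomy (ρ0 p) (ρ0 q) with h4 | h4 | h4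
    · exfalso
      have h5 : ((ρ0 p : ℤ) + 1) * c ≤ (ρ0 q : ℤ) * c :=
        mul_le_mul_of_nonneg_right (by exact_mod_cast h4) (by positivity)
      have h6 : ((ρ0 p : ℤ) + 1) * c = (ρ0 p : ℤ) * c + c := by ring
      omega
    · rw [h4] at h1
      omega
    · exfalso
      have h5 : ((ρ0 q : ℤ) + 1) * c ≤ (ρ0 p : ℤ) * c :=
        mul_le_mul_of_nonneg_right (by exact_mod_cast h4) (by positivity)
      have h6 : ((ρ0 q : ℤ) + 1) * c = (ρ0 q : ℤ) * c + c := by ring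
      omega
  have hρmono : ∀ p q : P, p < q → ρ p < ρ q := by
    intro p q h
    have h4 := hρ0 p q h
    have h2 := hen p
    have h5 : ((ρ0 p : ℤ) + 1) * c ≤ (ρ0 q : ℤ) * c :=
      mul_le_mul_of_nonneg_right (by exact_mod_cast h4) (by positivity)
    have h6 : ((ρ0 p : ℤ) + 1) * c = (ρ0 p : ℤ) * c + c := by ring
    change (ρ0 p : ℤ) * c + en p < (ρ0 q : ℤ) * c + en q
    omega
  have hρ0' : ∀ p, 0 ≤ ρ p := by
    intro p
    change 0 ≤ (ρ0 p : ℤ) * c + en p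
    positivity
  obtain ⟨K, hK⟩ : ∃ K : ℤ, ∀ p, ρ p < K := by
    obtain ⟨K, hK⟩ := (Set.finite_range ρ).bddAbove
    exact ⟨K + 1, fun p => Int.lt_add_one_of_le (hK ⟨p, rfl⟩)⟩
  let e : P → ℤ := fun p => K - ρ p
  let l : P → ℤ := fun p => K + 1 + ρ p
  have he0 : ∀ p, 0 < e p := fun p => by have := hK p; change 0 < K - ρ p; omega
  have hel : ∀ p q, e p < l q := fun p q => by
    have := hρ0' p; have := hρ0' q; change K - ρ p < K + 1 + ρ q; omega
  have hlt : ∀ p q, e p < e q ↔ ρ q < ρ p := fun p q => by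
    change K - ρ p < K - ρ q ↔ _; omega
  have hlt' : ∀ p q, l p < l q ↔ ρ p < ρ q := fun p q => by
    change K + 1 + ρ p < K + 1 + ρ q ↔ _; omega
  -- corners
  let A : Type := {a : P × (Nd × Kd) // OK (Z.N a.1) (Z.h a.1) Z.u a.2}
  have hOKN : ∀ (z : P) (b : Nd × Kd), OK (Z.N z) (Z.h z) Z.u b → b.1 ∈ Z.N z := by
    intro z b hb
    obtain ⟨v, k⟩ := b
    cases k
    · exact hb
    · exact hb
    · exact hb.1
    · exact hb.1
    · exact hb.1
    · exact hb.1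
  have hAfin : Finite A := by
    have hKd : Finite Kd := by
      refine Finite.of_surjective (fun i : Fin 6 => match i with
        | 0 => Kd.NW | 1 => Kd.SE | 2 => Kd.R | 3 => Kd.T | 4 => Kd.L | 5 => Kd.B) ?_
      intro k
      cases k
      · exact ⟨0, rfl⟩
      · exact ⟨1, rfl⟩
      · exact ⟨2, rfl⟩
      · exact ⟨3, rfl⟩
      · exact ⟨4, rfl⟩
      · exact ⟨5, rfl⟩
    have hU : (⋃ z, Z.N z).Finite := Set.finite_iUnion Z.fin
    have : Finite (⋃ z, Z.N z) := hU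
    refine Finite.of_injective (fun a : A =>
      ((a.1.1, (⟨a.1.2.1, Set.mem_iUnion.mpr ⟨a.1.1, hOKN _ _ a.2⟩⟩ : (⋃ z, Z.N z : Set Nd)),
        a.1.2.2) : P × (⋃ z, Z.N z : Set Nd) × Kd)) ?_
    intro a b hab
    simp only [Prod.mk.injEq, Subtype.mk.injEq] at hab
    exact Subtype.ext (Prod.ext hab.1 (Prod.ext hab.2.1 hab.2.2))
  have : Fintype A := Fintype.ofFinite A
  have hpin := fun z => hPIN (Z.N z) (Z.h z) Z.u (Z.hn z) (Z.un z)
  let π : Equiv.Perm A :=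
    { toFun := fun a => ⟨(a.1.1, nx (Z.h a.1.1) Z.u a.1.2), (hpin a.1.1).1 _ a.2⟩
      invFun := fun a => ⟨(a.1.1, pv (Z.h a.1.1) Z.u a.1.2), (hpin a.1.1).2.1 _ a.2⟩
      left_inv := fun a => Subtype.ext (Prod.ext rfl ((hpin a.1.1).2.2.1 _ a.2))
      right_inv := fun a => Subtype.ext (Prod.ext rfl ((hpin a.1.1).2.2.2 _ a.2)) }
  obtain ⟨x, hx, hxl⟩ := hKEY A fun a => kx (e a.1.1) (l a.1.1) a.1.2
  obtain ⟨y, hy, hyl⟩ := hKEY A fun a => ky (e a.1.1) a.1.2
  -- between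
  have hbt : ∀ (k : A → ℤ × ℤ) (x : A → ℝ), (∀ a b, LL (k a) (k b) → x a < x b) →
      ∀ a b c, x b ∈ Set.uIcc (x a) (x c) → Bt (k a) (k b) (k c) := by
    intro k x hx a b c h
    rw [Set.mem_uIcc] at h
    rcases h with ⟨h1, h2⟩ | ⟨h1, h2⟩
    · exact Or.inl ⟨fun h => absurd (hx _ _ h) (not_lt.mpr h1), fun h => absurd (hx _ _ h) (not_lt.mpr h2)⟩
    · exact Or.inr ⟨fun h => absurd (hx _ _ h) (not_lt.mpr h1), fun h => absurd (hx _ _ h) (not_lt.mpr h2)⟩
  have hbs : ∀ (k : A → ℤ × ℤ) (x : A → ℝ), (∀ a b, LL (k a) (k b) → x a < x b) →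
      ∀ a b c, Bs (k a) (k b) (k c) → x b ∈ Set.uIcc (x a) (x c) := by
    intro k x hx a b c h
    rw [Set.mem_uIcc]
    rcases h with ⟨h1, h2⟩ | ⟨h1, h2⟩
    · exact Or.inl ⟨(hx _ _ h1).le, (hx _ _ h2).le⟩
    · exact Or.inr ⟨(hx _ _ h1).le, (hx _ _ h2).le⟩
  have hsame : ∀ (z : P) (a : A), a.1.1 = z → ∀ b : A, b.1.1 = z → π.SameCycle a b := by
    intro z a ha b hb
    let D : Set (Nd × Kd) := {c | ∃ hc : OK (Z.N z) (Z.h z) Z.u c, π.SameCycle a ⟨(z, c), hc⟩}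
    have hD : ∀ c, OK (Z.N z) (Z.h z) Z.u c → (c ∈ D ↔ nx (Z.h z) Z.u c ∈ D) := by
      intro c hc
      have h1 : OK (Z.N z) (Z.h z) Z.u (nx (Z.h z) Z.u c) := (hpin z).1 _ hc
      have h2 : π ⟨(z, c), hc⟩ = ⟨(z, nx (Z.h z) Z.u c), h1⟩ := rfl
      constructor
      · rintro ⟨_, h3⟩
        refine ⟨h1, ?_⟩
        rw [← h2]
        exact Equiv.Perm.sameCycle_apply_right.mpr h3
      · rintro ⟨_, h3⟩
        refine ⟨hc, ?_⟩
        rw [← h2] at h3
        exact Equiv.Perm.sameCycle_apply_right.mp h3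
    obtain ⟨⟨z1, a1⟩, ha1⟩ := a
    obtain ⟨⟨z2, b1⟩, hb1⟩ := b
    change z1 = z at ha
    change z2 = z at hb
    subst ha
    subst hb
    have h3 := hSAM (Z.N z2) (Z.h z2) Z.u (Z.fin z2) (Z.hn z2) (Z.un z2) (Z.tr z2) D hD a1 b1 ha1 hb1
    exact (h3.mp ⟨ha1, Equiv.Perm.SameCycle.refl _ _⟩).2
  have hpow : ∀ (n : ℕ) (a : A), ((π ^ n) a).1.1 = a.1.1 := by
    intro n
    induction n with
    | zero => intro a; rfl
    | succ n ih =>
      intro a
      rw [pow_succ, Equiv.Perm.mul_apply, ih]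
      rfl
  obtain ⟨n, dM, dW, _, h1, h2, h3, h4, h5⟩ := poly_fin x y π (fun a : A => a.1.1) hx hy
    (by
      intro a h
      exact nx_ne _ _ _ (congrArg (fun b : A => b.1.2) h))
    (by
      intro a b
      constructor
      · intro h
        exact hsame b.1.1 a h b rfl
      · intro h
        obtain ⟨n, hn⟩ := h.exists_nat_pow_eq
        rw [← hn]
        exact (hpow n a).symm)
    (by
      intro z
      obtain ⟨v, hv⟩ := Z.ne z
      exact ⟨⟨(z, (v, Kd.NW)), hv⟩, rfl⟩)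
    (by
      intro a w hc
      have hcx := hbt _ x hxl _ _ _ hc.1
      have hcy := hbt _ y hyl _ _ _ hc.2
      obtain ⟨⟨z, a1⟩, ha1⟩ := a
      obtain ⟨⟨z', w1⟩, hw1⟩ := w
      by_cases hz : z = z'
      · subst hz
        have h6 := hCRS (Z.N z) (Z.h z) Z.u (e z) (l z) (Z.hn z) (Z.un z) (he0 z) (hel z z) a1 w1
          ha1 hw1 hcx hcy
        rcases h6 with h6 | h6
        · left
          exact Subtype.ext (Prod.ext rfl h6)
        · right; left
          exact Subtype.ext (Prod.ext rfl h6)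
      · right; right
        have h6 : ρ z ≠ ρ z' := fun h => hz (hρinj h)
        obtain ⟨h7, v, hv, hv'⟩ := hCRD (Z.N z) (Z.N z') (Z.h z) (Z.h z') Z.u (e z) (l z) (e z') (l z')
          (Z.hn z) (Z.hn z') (Z.un z) (Z.un z') (he0 z) (he0 z') (hel z z) (hel z z') (hel z' z)
          (hel z' z') (by
            rw [hlt, hlt', hlt, hlt']
            rcases lt_or_gt_of_ne h6 with h | h
            · exact Or.inr ⟨h, h⟩
            · exact Or.inl ⟨h, h⟩) a1 w1 ha1 hw1 hcx hcy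
        rw [hlt] at h7
        change z' < z
        have h8 : z ≤ z' ∨ z' ≤ z := by
          by_contra h9
          rw [not_or] at h9
          exact Set.disjoint_left.mp (Z.dis z z' h9.1 h9.2) hv hv'
        rcases h8 with h8 | h8
        · exfalso
          exact absurd (hρmono z z' (lt_of_le_of_ne h8 hz)) (not_lt.mpr h7.le)
        · exact lt_of_le_of_ne h8 fun h => hz h.symm)
    (by
      intro p q hpq
      obtain ⟨v, hv, hv', hr, hr'⟩ := Z.cov p q hpq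
      have h6 := hρmono p q hpq.lt
      obtain ⟨h7, h8⟩ := hCRM (Z.h q) (Z.h p) Z.u (e q) (l q) (e p) (l p) (he0 q)
        ((hlt q p).mpr h6) (hel p p) ((hlt' p q).mpr h6) v hr' hr
      refine ⟨⟨(q, (v, Kd.SE)), hv'⟩, ⟨(p, (v, Kd.R)), ⟨hv, hr⟩⟩, rfl, rfl, ?_, ?_⟩
      · exact hbs _ x hxl _ _ _ h7
      · exact hbs _ y hyl _ _ _ h8)
  exact ⟨n, dM, dW, h1, h2, h3, h4, h5⟩

/-- From plane sets to a system. -/
theorem plane_sys (hTOP : TOP_S) (hTRE : TRE_S) (hREG : REG_S) (hREF : REF_S)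
    (P : Type) [Finite P] [PartialOrder P] (F : P → Set (ℝ × ℝ))
    (h1 : ∀ x, IsCompact (F x) ∧ IsPathConnected (F x))
    (h2 : ∀ x y, ¬ x ≤ y → ¬ y ≤ x → Disjoint (F x) (F y))
    (h3 : ∀ x y, x ⋖ y → (F x ∩ F y).Nonempty) : Nonempty (Sys P) := by
  obtain ⟨M, hM, hMd, hMc⟩ := hTOP P F h1 h2 h3
  obtain ⟨r1, r2, r3, r4, r5, r6⟩ := hREG
  have htre : ∀ z, ∃ h : Nd → Prop, HN (Rf (M z)) h ∧ Tr (Rf (M z)) h uu := fun z =>
    hTRE (Rf (M z)) uu (r1 _ (hM z).1) (r2 _ (hM z).2.1) (r3 _) (hREF _ (hM z).2.2)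
  choose h hh using htre
  exact ⟨{ N := fun z => Rf (M z), h := h, u := uu
           fin := fun z => r1 _ (hM z).1
           ne := fun z => r2 _ (hM z).2.1
           hn := fun z => (hh z).1
           un := fun z => r3 _
           tr := fun z => (hh z).2
           dis := fun z z' a b => r4 _ _ (hMd z z' a b)
           cov := by
             intro z z' hz
             obtain ⟨v, hv, hv'⟩ := hMc z z' hz
             exact ⟨(2 * v.1 + 1, 4 * v.2 + 2), r5 _ v hv, r5 _ v hv',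
               fun hc => r6 (M z) v ((hh z).1 _ hc).2, fun hc => r6 (M z') v ((hh z').1 _ hc).2⟩ }⟩

/-- The statement of the realisation theorem. -/
def RLZ_S : Prop := ∀ (P : Type) [Finite P] [PartialOrder P] (F : P → Set (ℝ × ℝ)),
    (∀ x, IsCompact (F x) ∧ IsPathConnected (F x)) →
    (∀ x y, ¬ x ≤ y → ¬ y ≤ x → Disjoint (F x) (F y)) →
    (∀ x y, x ⋖ y → (F x ∩ F y).Nonempty) →
    ∃ (n : ℕ) (dM dW : Fin n → Fin n → ℝ),
      (∀ i, Function.Injective (dM i)) ∧ (∀ i, Function.Injective (dW i)) ∧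
      (∃ X : Fin n → ℝ, Function.Injective X ∧
        ∀ i a b c, X a < X b → X b < X c → dM i b ≤ max (dM i a) (dM i c)) ∧
      (∃ Y : Fin n → ℝ, Function.Injective Y ∧
        ∀ i a b c, Y a < Y b → Y b < Y c → dW i b ≤ max (dW i a) (dW i c)) ∧
      ∃ f : LowerSet P ≃ {σ : Equiv.Perm (Fin n) // St dM dW σ},
        ∀ S T, S ≤ T ↔ ∀ w, dW w ((f T).1.symm w) ≤ dW w ((f S).1.symm w)

/-- The realisation theorem from the rows of the board. -/
theorem rlz_thm (hPIN : PIN_S) (hCRS : CRS_S) (hCRD : CRD_S) (hCRM : CRM_S) (hSAM : SAM_S)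
    (hKEY : KEY_S) (hTOP : TOP_S) (hTRE : TRE_S) (hREG : REG_S) (hREF : REF_S) : RLZ_S := by
  intro P _ _ F h1 h2 h3
  obtain ⟨Z⟩ := plane_sys hTOP hTRE hREG hREF P F h1 h2 h3
  exact sys_thm hPIN hCRS hCRD hCRM hSAM hKEY P Z

end Pool.NET
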