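import Mathlib

/-!
# Board `net`: nets of thin ribbons in the grid

A poset element is a finite connected set `N` of nodes of the grid `ℤ × ℤ` with a tree: the
horizontal edges `h v` (from `v` to its right neighbour) and the vertical edges `u v` (from `v` to
its upper neighbour; `u` is the same for all elements).  The boundary of the thin ribbon around the
tree is a closed rectilinear curve.  It is described by its corners of the first kind (before
corners) `(v, k)`: `NW`, `SE` are the two elbows at the node `v`; `R, T, L, B` are the corners at the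
caps of the missing arms of `v` (right, top, left, bottom).  `nx` goes from a before corner along
the horizontal edge and then along the vertical edge to the next before corner; `pv` is its inverse.
-/

set_option autoImplicit false

namespace Pool.NET

/-- Nodes of the grid: column, row. -/
abbrev Nd : Type := ℤ × ℤ

/-- Kinds of before corners. -/
inductive Kd : Type
  | NW | SE | R | T | L | B

/-- The before corners which exist for the element with nodes `N` and horizontal edges `h`. -/
def OK (N : Set Nd) (h u : Nd → Prop) : Nd × Kd → Prop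
  | (v, Kd.NW) => v ∈ N
  | (v, Kd.SE) => v ∈ N
  | (v, Kd.R) => v ∈ N ∧ ¬ h v
  | (v, Kd.T) => v ∈ N ∧ ¬ u v
  | (v, Kd.L) => v ∈ N ∧ ¬ h (v.1 - 1, v.2)
  | (v, Kd.B) => v ∈ N ∧ ¬ u (v.1, v.2 - 1)

open Classical in
/-- The vertical edge going up from the `NE` elbow of `v`. -/
noncomputable def upV (u : Nd → Prop) (v : Nd) : Nd × Kd :=
  if u v then ((v.1, v.2 + 1), Kd.SE) else (v, Kd.T)

open Classical in
/-- The vertical edge going down from the `SW` elbow of `v`. -/
noncomputable def dnV (u : Nd → Prop) (v : Nd) : Nd × Kd :=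
  if u (v.1, v.2 - 1) then ((v.1, v.2 - 1), Kd.NW) else (v, Kd.B)

open Classical in
/-- The horizontal edge arriving at the `NE` elbow of `v`. -/
noncomputable def rNE (h : Nd → Prop) (v : Nd) : Nd × Kd :=
  if h v then ((v.1 + 1, v.2), Kd.NW) else (v, Kd.R)

open Classical in
/-- The horizontal edge arriving at the `SW` elbow of `v`. -/
noncomputable def rSW (h : Nd → Prop) (v : Nd) : Nd × Kd :=
  if h (v.1 - 1, v.2) then ((v.1 - 1, v.2), Kd.SE) else (v, Kd.L)

open Classical in
/-- The next before corner. -/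
noncomputable def nx (h u : Nd → Prop) : Nd × Kd → Nd × Kd
  | (v, Kd.NW) => if h (v.1 - 1, v.2) then upV u (v.1 - 1, v.2) else (v, Kd.L)
  | (v, Kd.SE) => if h v then dnV u (v.1 + 1, v.2) else (v, Kd.R)
  | (v, Kd.R) => upV u v
  | (v, Kd.T) => (v, Kd.NW)
  | (v, Kd.L) => dnV u v
  | (v, Kd.B) => (v, Kd.SE)

open Classical in
/-- The previous before corner. -/
noncomputable def pv (h u : Nd → Prop) : Nd × Kd → Nd × Kd
  | (v, Kd.NW) => if u v then rSW h (v.1, v.2 + 1) else (v, Kd.T)
  | (v, Kd.SE) => if u (v.1, v.2 - 1) then rNE h (v.1, v.2 - 1) else (v, Kd.B)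
  | (v, Kd.R) => (v, Kd.SE)
  | (v, Kd.T) => rNE h v
  | (v, Kd.L) => (v, Kd.NW)
  | (v, Kd.B) => rSW h v

/-- The horizontal edges join nodes. -/
def HN (N : Set Nd) (h : Nd → Prop) : Prop := ∀ v, h v → v ∈ N ∧ (v.1 + 1, v.2) ∈ N

/-- `N` is closed under the vertical edges. -/
def UN (N : Set Nd) (u : Nd → Prop) : Prop := ∀ v, u v → (v ∈ N ↔ (v.1, v.2 + 1) ∈ N)

/-- Horizontal offset of the abscissa of the vertical edge of a before corner. -/
def ox (e l : ℤ) : Kd → ℤ
  | Kd.NW => -e
  | Kd.SE => e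
  | Kd.R => l
  | Kd.T => e
  | Kd.L => -l
  | Kd.B => -e

/-- Vertical offset of the height of the horizontal edge of a before corner. -/
def oy (e : ℤ) : Kd → ℤ
  | Kd.NW => e
  | Kd.SE => -e
  | Kd.R => e
  | Kd.T => 2 * e
  | Kd.L => -e
  | Kd.B => -(2 * e)

/-- Abscissa (column, offset) of the vertical edge of a before corner. -/
def kx (e l : ℤ) (a : Nd × Kd) : ℤ × ℤ := (a.1.1, ox e l a.2)

/-- Height (row, offset) of the horizontal edge of a before corner. -/
def ky (e : ℤ) (a : Nd × Kd) : ℤ × ℤ := (a.1.2, oy e a.2)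

/-- Lexicographic order. -/
def LL (p q : ℤ × ℤ) : Prop := p.1 < q.1 ∨ (p.1 = q.1 ∧ p.2 < q.2)

/-- `q` lies weakly between `p` and `r` in the lexicographic order. -/
def Bt (p q r : ℤ × ℤ) : Prop := (¬ LL q p ∧ ¬ LL r q) ∨ (¬ LL q r ∧ ¬ LL p q)

/-- `q` lies strictly between `p` and `r` in the lexicographic order. -/
def Bs (p q r : ℤ × ℤ) : Prop := (LL p q ∧ LL q r) ∨ (LL r q ∧ LL q p)

/-- Adjacency in the tree of an element. -/
def Ad (N : Set Nd) (h u : Nd → Prop) (v w : Nd) : Prop :=
  v ∈ N ∧ w ∈ N ∧ ((w = (v.1 + 1, v.2) ∧ h v) ∨ (v = (w.1 + 1, w.2) ∧ h w) ∨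
    (w = (v.1, v.2 + 1) ∧ u v) ∨ (v = (w.1, w.2 + 1) ∧ u w))

/-- The graph with the relation `r` on `N` is connected. -/
def Cn (N : Set Nd) (r : Nd → Nd → Prop) : Prop :=
  ∀ v ∈ N, ∀ w ∈ N, Relation.ReflTransGen r v w

/-- The edges of an element form a tree: it is connected, and for some depth function the ends of an
edge have different depth and a node has at most one neighbour of smaller depth. -/
def Tr (N : Set Nd) (h u : Nd → Prop) : Prop :=
  Cn N (Ad N h u) ∧ ∃ d : Nd → ℕ, (∀ v w, Ad N h u v w → d v ≠ d w) ∧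
    ∀ v w w', Ad N h u v w → Ad N h u v w' → d w < d v → d w' < d v → w = w'

/-- The vertical edges of the refined grid. -/
def uu (v : Nd) : Prop :=
  (v.1 % 2 = 0 ∧ (v.2 % 4 = 3 ∨ v.2 % 4 = 0)) ∨ (v.1 % 2 = 1 ∧ (v.2 % 4 = 1 ∨ v.2 % 4 = 2))

/-- The refined node set of a node set: seven nodes for every node. -/
def Rf (N : Set Nd) : Set Nd :=
  {v | (v.1 % 2 = 0 ∧ v.2 % 4 ≠ 2 ∧ (v.1 / 2, (v.2 + 1) / 4) ∈ N) ∨
    (v.1 % 2 = 1 ∧ (v.1 / 2, v.2 / 4) ∈ N)}

/-- Adjacency inside `N`, with all horizontal edges and the vertical edges `u`. -/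
def G0 (N : Set Nd) (u : Nd → Prop) (v w : Nd) : Prop :=
  Ad N (fun _ => True) u v w

end Pool.NET
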