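import Pool.Agent.H82.NET.ASM
import Pool.Agent.H55.NET.CRD
import Pool.Agent.H56.NET.CRM
import Pool.Agent.H53.NET.KEY
import Pool.Agent.H89.NET.REF
import Pool.Agent.H50.NET.SAM
import Pool.Agent.H31.NET.ELB
import Pool.Agent.H3.NET.TOP
import Pool.Agent.H78.NET.TPC
import Pool.Agent.H26.NET.TPD
import Pool.Agent.H71.NET.TPF
import Pool.Agent.H18.NET.TRE
import Pool.Agent.H22.NET.REG
import Pool.Agent.H49.NET.CRS
import Pool.Agent.H54.NET.PIN

set_option autoImplicit false

namespace Pool.NET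

/-- The realisation theorem. -/
theorem rlz_main : RLZ_S :=
  rlz_thm pin_thm CRS_thm crd_thm crm_thm (sam_thm elb_thm) key_thm
    (top_thm tpc_thm tpf_thm tpd_thm) tre_thm reg_thm ref_thm

end Pool.NET
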