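import Pool.Agent.H82.NET.Defs

/-!
# Board `net`: the statements
-/

set_option autoImplicit false

namespace Pool.NET

/-- `nx` and `pv` preserve the existing corners and are inverse to each other there. -/
def PIN_S : Prop := ∀ (N : Set Nd) (h u : Nd → Prop), HN N h → UN N u →
  (∀ a, OK N h u a → OK N h u (nx h u a)) ∧ (∀ a, OK N h u a → OK N h u (pv h u a)) ∧
  (∀ a, OK N h u a → pv h u (nx h u a) = a) ∧ ∀ a, OK N h u a → nx h u (pv h u a) = a

/-- The curve of one element crosses itself only at its corners. -/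
def CRS_S : Prop := ∀ (N : Set Nd) (h u : Nd → Prop) (e l : ℤ), HN N h → UN N u → 0 < e → e < l →
  ∀ a w, OK N h u a → OK N h u w → Bt (kx e l a) (kx e l w) (kx e l (nx h u a)) →
  Bt (ky e w) (ky e a) (ky e (pv h u w)) → w = a ∨ w = nx h u a

/-- Two different elements (nodes `N`, `N'`; the one with the smaller `e` has the larger `l`): if a
horizontal edge of the first meets a vertical edge of the second, then the first is the narrower
one and there is a common node. -/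
def CRD_S : Prop := ∀ (N N' : Set Nd) (h h' u : Nd → Prop) (e l e' l' : ℤ),
  HN N h → HN N' h' → UN N u → UN N' u →
  0 < e → 0 < e' → e < l → e < l' → e' < l → e' < l' → ((e < e' ∧ l' < l) ∨ (e' < e ∧ l < l')) →
  ∀ a w, OK N h u a → OK N' h' u w → Bt (kx e l a) (kx e' l' w) (kx e l (nx h u a)) →
  Bt (ky e' w) (ky e a) (ky e' (pv h' u w)) → e < e' ∧ ∃ v, v ∈ N ∧ v ∈ N'

/-- If both elements have the node `v` and lack the right arm there, the bottom side of the stub of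
the narrower one strictly crosses the right cap of the wider one. -/
def CRM_S : Prop := ∀ (h h' u : Nd → Prop) (e l e' l' : ℤ), 0 < e → e < e' → e' < l' → l' < l →
  ∀ v, ¬ h v → ¬ h' v →
  Bs (kx e l (v, Kd.SE)) (kx e' l' (v, Kd.R)) (kx e l (nx h u (v, Kd.SE))) ∧
  Bs (ky e' (v, Kd.R)) (ky e (v, Kd.SE)) (ky e' (pv h' u (v, Kd.R)))

/-- Elbow lemma: values `nw, ne, sw, se` at the four elbows of the nodes; on the two sides of an
existing arm they agree along the arm, across a missing arm they agree.  In a tree all agree.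
(Proof: downward induction on the depth: the four elbows of a node agree.) -/
def ELB_S : Prop := ∀ (N : Set Nd) (h u : Nd → Prop), N.Finite → HN N h → UN N u → Tr N h u →
  ∀ nw ne sw se : Nd → Prop,
  (∀ v ∈ N, h v → ((ne v ↔ nw (v.1 + 1, v.2)) ∧ (se v ↔ sw (v.1 + 1, v.2)))) →
  (∀ v ∈ N, ¬ h v → (ne v ↔ se v)) →
  (∀ v ∈ N, ¬ h (v.1 - 1, v.2) → (nw v ↔ sw v)) →
  (∀ v ∈ N, u v → ((ne v ↔ se (v.1, v.2 + 1)) ∧ (nw v ↔ sw (v.1, v.2 + 1)))) →
  (∀ v ∈ N, ¬ u v → (ne v ↔ nw v)) →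
  (∀ v ∈ N, ¬ u (v.1, v.2 - 1) → (sw v ↔ se v)) →
  ∀ v ∈ N, ∀ w ∈ N, (nw v ↔ nw w) ∧ (ne v ↔ nw w) ∧ (sw v ↔ nw w) ∧ (se v ↔ nw w)

/-- The boundary of the ribbon of a tree is one closed curve: a set of corners invariant under `nx`
contains all or none of the existing corners.  (Take `nw v := (v, NW) ∈ D`, `se v := (v, SE) ∈ D`,
`ne v := upV u v ∈ D`, `sw v := dnV u v ∈ D` in `ELB_S`.) -/
def SAM_S : Prop := ∀ (N : Set Nd) (h u : Nd → Prop), N.Finite → HN N h → UN N u → Tr N h u →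
  ∀ D : Set (Nd × Kd), (∀ a, OK N h u a → (a ∈ D ↔ nx h u a ∈ D)) →
  ∀ a b, OK N h u a → OK N h u b → (a ∈ D ↔ b ∈ D)

/-- Spanning tree which contains all vertical edges. -/
def TRE_S : Prop := ∀ (N : Set Nd) (u : Nd → Prop), N.Finite → N.Nonempty → UN N u →
  Cn N (G0 N u) → ∃ h : Nd → Prop, HN N h ∧ Tr N h u

/-- Lexicographic keys to reals, with ties broken. -/
def KEY_S : Prop := ∀ (A : Type) [Finite A] (k : A → ℤ × ℤ), ∃ x : A → ℝ, Function.Injective x ∧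
  ∀ a b, LL (k a) (k b) → x a < x b

/-- The grid nodes around the points of a plane set, mesh `δ`. -/
def Qd (δ : ℝ) (F : Set (ℝ × ℝ)) : Set Nd :=
  {g | ∃ p ∈ F, (g.1 = ⌊p.1 / δ⌋ ∨ g.1 = ⌊p.1 / δ⌋ + 1) ∧ (g.2 = ⌊p.2 / δ⌋ ∨ g.2 = ⌊p.2 / δ⌋ + 1)}

/-- Path-connected sets have connected grid neighbourhoods. -/
def TPC_S : Prop := ∀ (δ : ℝ) (F : Set (ℝ × ℝ)), 0 < δ → IsPathConnected F →
  Cn (Qd δ F) (G0 (Qd δ F) fun _ => True)

/-- Compact sets have finite grid neighbourhoods. -/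
def TPF_S : Prop := ∀ (δ : ℝ) (F : Set (ℝ × ℝ)), 0 < δ → IsCompact F → (Qd δ F).Finite

/-- Disjoint compact sets have disjoint grid neighbourhoods for small mesh. -/
def TPD_S : Prop := ∀ F F' : Set (ℝ × ℝ), IsCompact F → IsCompact F' → Disjoint F F' →
  ∃ δ0 : ℝ, 0 < δ0 ∧ ∀ δ, 0 < δ → δ < δ0 → Disjoint (Qd δ F) (Qd δ F')

/-- From plane sets to node sets. -/
def TOP_S : Prop := ∀ (P : Type) [Finite P] [PartialOrder P] (F : P → Set (ℝ × ℝ)),
  (∀ x, IsCompact (F x) ∧ IsPathConnected (F x)) →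
  (∀ x y, ¬ x ≤ y → ¬ y ≤ x → Disjoint (F x) (F y)) → (∀ x y, x ⋖ y → (F x ∩ F y).Nonempty) →
  ∃ M : P → Set Nd, (∀ x, (M x).Finite ∧ (M x).Nonempty ∧ Cn (M x) (G0 (M x) fun _ => True)) ∧
    (∀ x y, ¬ x ≤ y → ¬ y ≤ x → Disjoint (M x) (M y)) ∧ ∀ x y, x ⋖ y → (M x ∩ M y).Nonempty

/-- The refined node set is finite and closed under the vertical edges `uu`; refined sets of
disjoint sets are disjoint; a common node gives a common refined node without right arm. -/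
def REG_S : Prop :=
  (∀ M : Set Nd, M.Finite → (Rf M).Finite) ∧ (∀ M : Set Nd, M.Nonempty → (Rf M).Nonempty) ∧
  (∀ M : Set Nd, UN (Rf M) uu) ∧
  (∀ M M' : Set Nd, Disjoint M M' → Disjoint (Rf M) (Rf M')) ∧
  (∀ M : Set Nd, ∀ v ∈ M, (2 * v.1 + 1, 4 * v.2 + 2) ∈ Rf M) ∧
  ∀ (M : Set Nd) (v : Nd), (2 * v.1 + 1 + 1, 4 * v.2 + 2) ∉ Rf M

/-- The refined node set is connected.  (The block of the node `(i, j)` consists of
`(2i, 4j-1), (2i, 4j), (2i, 4j+1)` and `(2i+1, 4j), ..., (2i+1, 4j+3)`.) -/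
def REF_S : Prop := ∀ M : Set Nd, Cn M (G0 M fun _ => True) → Cn (Rf M) (G0 (Rf M) uu)

end Pool.NET
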